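import Pool.Agent.Helper20.FR.St

/-!
# Project R20, module RA

With `a = α N` and `ρ c = ∑ n < m, 8^n r (a^n c)` one has `ρ (α k c) ≤ ρ c / 4` for `k ≥ N`, so
`ρ c ≤ (4/3) ρ (c + α k c)`.
-/

set_option autoImplicit false

open Topology Filter

namespace Pool.Agent.Helper5.R20

open Pool.Agent.Helper20.FA
open Pool.Agent.Helper20.FR

section

variable {A : Type} [NonUnitalCommRing A]

/-- `a^n c`. -/
private def P (a : A) (n : ℕ) (c : A) : A := (fun z => a * z)^[n] c

private theorem P_zero (a c : A) : P a 0 c = c := rfl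

private theorem P_succ (a : A) (n : ℕ) (c : A) : P a (n + 1) c = a * P a n c :=
  Function.iterate_succ_apply' _ _ _

private theorem P_add (a : A) (n : ℕ) (x y : A) : P a n (x + y) = P a n x + P a n y := by
  induction n with
  | zero => rfl
  | succ n ih => rw [P_succ, P_succ, P_succ, ih, mul_add]

private theorem P_sub (a : A) (n : ℕ) (x y : A) : P a n (x - y) = P a n x - P a n y := by
  induction n with
  | zero => rfl
  | succ n ih => rw [P_succ, P_succ, P_succ, ih, mul_sub]

private theorem P_mul (a : A) (n : ℕ) (d c : A) : P a n (d * c) = d * P a n c := by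
  induction n with
  | zero => rfl
  | succ n ih => rw [P_succ, P_succ, ih, mul_left_comm]

private theorem P_self (a : A) (n : ℕ) (c : A) : P a (n + 1) c = P a n a * c := by
  induction n with
  | zero => rw [P_succ, P_zero, P_zero]
  | succ n ih => rw [P_succ, ih, P_succ, mul_assoc]

variable [Module ℂ A] (r : Seminorm ℂ A)

/-- The auxiliary seminorm. -/
private noncomputable def rho (a : A) (m : ℕ) (c : A) : ℝ :=
  ∑ n ∈ Finset.range m, 8 ^ n * r (P a n c)

private theorem rho_add_le (a : A) (m : ℕ) (x y : A) :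
    rho r a m (x + y) ≤ rho r a m x + rho r a m y := by
  unfold rho
  rw [← Finset.sum_add_distrib]
  refine Finset.sum_le_sum fun n _ => ?_
  rw [P_add, ← mul_add]
  exact mul_le_mul_of_nonneg_left (map_add_le_add r _ _) (by positivity)

private theorem rho_sub_le (a : A) (m : ℕ) (x y : A) :
    rho r a m (x - y) ≤ rho r a m x + rho r a m y := by
  unfold rho
  rw [← Finset.sum_add_distrib]
  refine Finset.sum_le_sum fun n _ => ?_
  rw [P_sub, ← mul_add]
  exact mul_le_mul_of_nonneg_left (map_sub_le_add r _ _) (by positivity)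

private theorem rho_nonneg (a : A) (m : ℕ) (c : A) : 0 ≤ rho r a m c := by
  unfold rho
  exact Finset.sum_nonneg fun n _ => mul_nonneg (by positivity) (apply_nonneg r _)

private theorem rho_mul_le (hr : ∀ a b, r (a * b) ≤ r a * r b) (a : A) (m : ℕ) (d c : A) :
    rho r a m (d * c) ≤ r d * rho r a m c := by
  unfold rho
  rw [Finset.mul_sum]
  refine Finset.sum_le_sum fun n _ => ?_
  rw [P_mul]
  calc (8 : ℝ) ^ n * r (d * P a n c) ≤ 8 ^ n * (r d * r (P a n c)) :=
        mul_le_mul_of_nonneg_left (hr _ _) (by positivity)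
    _ = r d * (8 ^ n * r (P a n c)) := by ring

private theorem P_le (hr : ∀ a b, r (a * b) ≤ r a * r b) (a : A) (n : ℕ) (c : A) :
    r (P a n c) ≤ r a ^ n * r c := by
  induction n with
  | zero => rw [P_zero, pow_zero, one_mul]
  | succ n ih =>
    rw [P_succ]
    calc r (a * P a n c) ≤ r a * r (P a n c) := hr _ _
      _ ≤ r a * (r a ^ n * r c) := mul_le_mul_of_nonneg_left ih (apply_nonneg r a)
      _ = r a ^ (n + 1) * r c := by ring

private theorem rho_le (hr : ∀ a b, r (a * b) ≤ r a * r b) (a : A) (m : ℕ) (c : A) :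
    rho r a m c ≤ (∑ n ∈ Finset.range m, 8 ^ n * r a ^ n) * r c := by
  unfold rho
  rw [Finset.sum_mul]
  refine Finset.sum_le_sum fun n _ => ?_
  calc (8 : ℝ) ^ n * r (P a n c) ≤ 8 ^ n * (r a ^ n * r c) :=
        mul_le_mul_of_nonneg_left (P_le r hr a n c) (by positivity)
    _ = 8 ^ n * r a ^ n * r c := by ring

private theorem rho_ge (a : A) (m : ℕ) (hm : 1 ≤ m) (c : A) : r c ≤ rho r a m c := by
  unfold rho
  have h := Finset.single_le_sum (f := fun n => (8 : ℝ) ^ n * r (P a n c))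
    (fun n _ => mul_nonneg (by positivity) (apply_nonneg r _)) (Finset.mem_range.2 hm)
  simp only [pow_zero, one_mul] at h
  exact h

private theorem rho_a (a : A) (m : ℕ) (c : A) (h : 8 ^ m * r (P a m c) ≤ r c) :
    8 * rho r a m (a * c) ≤ rho r a m c := by
  have h1 : 8 * rho r a m (a * c) = ∑ n ∈ Finset.range m, 8 ^ (n + 1) * r (P a (n + 1) c) := by
    unfold rho
    rw [Finset.mul_sum]
    refine Finset.sum_congr rfl fun n _ => ?_
    rw [P_mul, P_succ]
    ring
  have h2 := Finset.sum_range_succ' (fun n => (8 : ℝ) ^ n * r (P a n c)) m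
  have h3 := Finset.sum_range_succ (fun n => (8 : ℝ) ^ n * r (P a n c)) m
  simp only [pow_zero, one_mul, P_zero] at h2
  have h4 : rho r a m c = ∑ n ∈ Finset.range m, (8 : ℝ) ^ n * r (P a n c) := rfl
  rw [h1, h4]
  linarith

end

/-- **RA.** -/
theorem hRA : StRA := by
  intro A _ _ _ _ r q hr hrad α C hC hα hc
  obtain ⟨N, hN⟩ := hα (1 / 8) (by norm_num)
  obtain ⟨a, ha⟩ : ∃ a : A, a = α N := ⟨_, rfl⟩
  obtain ⟨K, hK⟩ := hrad a (1 / 16) (by norm_num)
  have hK0 : 0 ≤ K := by
    have h := hK 0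
    rw [pow_zero, mul_one] at h
    exact (apply_nonneg r _).trans h
  obtain ⟨n0, hn0⟩ := exists_pow_lt_of_lt_one (by positivity : (0 : ℝ) < 1 / (8 * K + 1))
    (by norm_num : (1 / 2 : ℝ) < 1)
  have hn1 : 8 ^ (n0 + 1) * (K * (1 / 16) ^ n0) ≤ 1 := by
    rw [lt_div_iff₀ (by positivity)] at hn0
    have e : (8 : ℝ) ^ (n0 + 1) * (K * (1 / 16) ^ n0) = (1 / 2) ^ n0 * (8 * K) := by
      have e2 : (8 : ℝ) ^ n0 * (1 / 16) ^ n0 = (1 / 2) ^ n0 := by
        rw [← mul_pow]
        norm_num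
      rw [pow_succ, ← e2]
      ring
    rw [e]
    have : (0 : ℝ) < (1 / 2) ^ n0 := by positivity
    linarith
  have hm : ∀ c, 8 ^ (n0 + 1) * r (P a (n0 + 1) c) ≤ r c := by
    intro c
    rw [P_self]
    have h1 : r (P a n0 a * c) ≤ K * (1 / 16) ^ n0 * r c :=
      (hr _ _).trans (mul_le_mul_of_nonneg_right (hK n0) (apply_nonneg r c))
    calc (8 : ℝ) ^ (n0 + 1) * r (P a n0 a * c) ≤ 8 ^ (n0 + 1) * (K * (1 / 16) ^ n0 * r c) :=
          mul_le_mul_of_nonneg_left h1 (by positivity)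
      _ = 8 ^ (n0 + 1) * (K * (1 / 16) ^ n0) * r c := by ring
      _ ≤ 1 * r c := mul_le_mul_of_nonneg_right hn1 (apply_nonneg r c)
      _ = r c := one_mul _
  obtain ⟨M, hM⟩ : ∃ M : ℝ, M = ∑ n ∈ Finset.range (n0 + 1), (8 : ℝ) ^ n * r a ^ n := ⟨_, rfl⟩
  have hM0 : 0 ≤ M := by
    rw [hM]
    exact Finset.sum_nonneg fun n _ => mul_nonneg (by positivity)
      (pow_nonneg (apply_nonneg r a) n)
  -- the contraction
  have hctr : ∀ k, N ≤ k → ∀ c, rho r a (n0 + 1) (α k * c) ≤ rho r a (n0 + 1) c / 4 := by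
    intro k hk c
    have e : α k * c = a * c + (α k - a) * c := by
      rw [← add_mul, add_sub_cancel]
    have h1 := rho_add_le r a (n0 + 1) (a * c) ((α k - a) * c)
    have h2 := rho_a r a (n0 + 1) c (hm c)
    have h3 := rho_mul_le r hr a (n0 + 1) (α k - a) c
    have h4 : r (α k - a) ≤ 1 / 8 := by
      rw [ha]
      exact hN k hk
    have h5 := mul_le_mul_of_nonneg_right h4 (rho_nonneg r a (n0 + 1) c)
    rw [e]
    linarith
  have hmain : ∀ k, N ≤ k → ∀ c, 3 * r c ≤ 4 * (M * (C * q c + (1 / 2) ^ k * r c)) := by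
    intro k hk c
    have h1 := rho_sub_le r a (n0 + 1) (c + α k * c) (α k * c)
    rw [add_sub_cancel_right] at h1
    have h2 := hctr k hk c
    have h3 := rho_le r hr a (n0 + 1) (c + α k * c)
    rw [← hM] at h3
    have h4 := mul_le_mul_of_nonneg_left (hc k c) hM0
    have h5 := rho_ge r a (n0 + 1) (by omega) c
    linarith
  -- choice of `k`
  obtain ⟨k0, hk0⟩ := exists_pow_lt_of_lt_one (by positivity : (0 : ℝ) < 1 / (4 * M + 1))
    (by norm_num : (1 / 2 : ℝ) < 1)
  refine ⟨2 * (M * C), fun c => ?_⟩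
  have h1 := hmain (max N k0) (le_max_left _ _) c
  have h2 : (1 / 2 : ℝ) ^ (max N k0) ≤ (1 / 2) ^ k0 :=
    pow_le_pow_of_le_one (by norm_num) (by norm_num) (le_max_right _ _)
  rw [lt_div_iff₀ (by positivity)] at hk0
  have h3 : 4 * (M * (1 / 2 : ℝ) ^ (max N k0)) ≤ 1 := by
    have h4 := mul_le_mul_of_nonneg_left h2 hM0
    have h5 : (0 : ℝ) < (1 / 2) ^ k0 := by positivity
    linarith
  have h6 := mul_le_mul_of_nonneg_right h3 (apply_nonneg r c)
  have h7 : 4 * (M * (C * q c + (1 / 2) ^ (max N k0) * r c)) =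
      4 * (M * C) * q c + 4 * (M * (1 / 2 : ℝ) ^ (max N k0)) * r c := by ring
  rw [h7] at h1
  linarith

end Pool.Agent.Helper5.R20
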