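import Pool.Agent.Helper20.FR.St2

/-!
# Project R20, module RB

With `a = α N` and `ρ c = ∑ n < m, 8^n r (a^n c)` one has `ρ (α k c) ≤ ρ c / 4` for `k ≥ N`.
-/

set_option autoImplicit false

open Topology Filter

namespace Pool.Agent.Helper5.R20b

open Pool.Agent.Helper20.FA
open Pool.Agent.Helper20.FR

section

variable {A : Type} [NonUnitalCommRing A]

/-- `a^n c`. -/
private def P (a : A) (n : ℕ) (c : A) : A := (fun z => a * z)^[n] c

private theorem P_zero (a c : A) : P a 0 c = c := rfl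

private theorem P_succ (a : A) (n : ℕ) (c : A) : P a (n + 1) c = a * P a n c :=
  Function.iterate_succ_apply' _ _ _

private theorem P_add (a : A) (n : ℕ) (x y : A) : P a n (x + y) = P a n x + P a n y := by
  induction n with
  | zero => rfl
  | succ n ih => rw [P_succ, P_succ, P_succ, ih, mul_add]

private theorem P_sub (a : A) (n : ℕ) (x y : A) : P a n (x - y) = P a n x - P a n y := by
  induction n with
  | zero => rfl
  | succ n ih => rw [P_succ, P_succ, P_succ, ih, mul_sub]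

private theorem P_mul (a : A) (n : ℕ) (d c : A) : P a n (d * c) = d * P a n c := by
  induction n with
  | zero => rfl
  | succ n ih => rw [P_succ, P_succ, ih, mul_left_comm]

private theorem P_self (a : A) (n : ℕ) (c : A) : P a (n + 1) c = P a n a * c := by
  induction n with
  | zero => rw [P_succ, P_zero, P_zero]
  | succ n ih => rw [P_succ, ih, P_succ, mul_assoc]

variable [Module ℂ A] (r : Seminorm ℂ A)

/-- The auxiliary seminorm. -/
private noncomputable def rho (a : A) (m : ℕ) (c : A) : ℝ :=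
  ∑ n ∈ Finset.range m, 8 ^ n * r (P a n c)

private theorem rho_add_le (a : A) (m : ℕ) (x y : A) :
    rho r a m (x + y) ≤ rho r a m x + rho r a m y := by
  unfold rho
  rw [← Finset.sum_add_distrib]
  refine Finset.sum_le_sum fun n _ => ?_
  rw [P_add, ← mul_add]
  exact mul_le_mul_of_nonneg_left (map_add_le_add r _ _) (by positivity)

private theorem rho_sub_le (a : A) (m : ℕ) (x y : A) :
    rho r a m (x - y) ≤ rho r a m x + rho r a m y := by
  unfold rho
  rw [← Finset.sum_add_distrib]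
  refine Finset.sum_le_sum fun n _ => ?_
  rw [P_sub, ← mul_add]
  exact mul_le_mul_of_nonneg_left (map_sub_le_add r _ _) (by positivity)

private theorem rho_nonneg (a : A) (m : ℕ) (c : A) : 0 ≤ rho r a m c := by
  unfold rho
  exact Finset.sum_nonneg fun n _ => mul_nonneg (by positivity) (apply_nonneg r _)

private theorem rho_mul_le (hr : ∀ a b, r (a * b) ≤ r a * r b) (a : A) (m : ℕ) (d c : A) :
    rho r a m (d * c) ≤ r d * rho r a m c := by
  unfold rho
  rw [Finset.mul_sum]
  refine Finset.sum_le_sum fun n _ => ?_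
  rw [P_mul]
  calc (8 : ℝ) ^ n * r (d * P a n c) ≤ 8 ^ n * (r d * r (P a n c)) :=
        mul_le_mul_of_nonneg_left (hr _ _) (by positivity)
    _ = r d * (8 ^ n * r (P a n c)) := by ring

private theorem P_le (hr : ∀ a b, r (a * b) ≤ r a * r b) (a : A) (n : ℕ) (c : A) :
    r (P a n c) ≤ r a ^ n * r c := by
  induction n with
  | zero => rw [P_zero, pow_zero, one_mul]
  | succ n ih =>
    rw [P_succ]
    calc r (a * P a n c) ≤ r a * r (P a n c) := hr _ _
      _ ≤ r a * (r a ^ n * r c) := mul_le_mul_of_nonneg_left ih (apply_nonneg r a)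
      _ = r a ^ (n + 1) * r c := by ring

private theorem rho_le (hr : ∀ a b, r (a * b) ≤ r a * r b) (a : A) (m : ℕ) (c : A) :
    rho r a m c ≤ (∑ n ∈ Finset.range m, 8 ^ n * r a ^ n) * r c := by
  unfold rho
  rw [Finset.sum_mul]
  refine Finset.sum_le_sum fun n _ => ?_
  calc (8 : ℝ) ^ n * r (P a n c) ≤ 8 ^ n * (r a ^ n * r c) :=
        mul_le_mul_of_nonneg_left (P_le r hr a n c) (by positivity)
    _ = 8 ^ n * r a ^ n * r c := by ring

private theorem rho_ge (a : A) (m : ℕ) (hm : 1 ≤ m) (c : A) : r c ≤ rho r a m c := by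
  unfold rho
  have h := Finset.single_le_sum (f := fun n => (8 : ℝ) ^ n * r (P a n c))
    (fun n _ => mul_nonneg (by positivity) (apply_nonneg r _)) (Finset.mem_range.2 hm)
  simp only [pow_zero, one_mul] at h
  exact h

private theorem rho_a (a : A) (m : ℕ) (c : A) (h : 8 ^ m * r (P a m c) ≤ r c) :
    8 * rho r a m (a * c) ≤ rho r a m c := by
  have h1 : 8 * rho r a m (a * c) = ∑ n ∈ Finset.range m, 8 ^ (n + 1) * r (P a (n + 1) c) := by
    unfold rho
    rw [Finset.mul_sum]
    refine Finset.sum_congr rfl fun n _ => ?_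
    rw [P_mul, P_succ]
    ring
  have h2 := Finset.sum_range_succ' (fun n => (8 : ℝ) ^ n * r (P a n c)) m
  have h3 := Finset.sum_range_succ (fun n => (8 : ℝ) ^ n * r (P a n c)) m
  simp only [pow_zero, one_mul, P_zero] at h2
  have h4 : rho r a m c = ∑ n ∈ Finset.range m, (8 : ℝ) ^ n * r (P a n c) := rfl
  rw [h1, h4]
  linarith

end

/-- `- x + x^2 - ...` (`m` terms). -/
private def Sq {A : Type} [NonUnitalCommRing A] (x : A) : ℕ → A
  | 0 => 0
  | m + 1 => -(x + x * Sq x m)

private theorem Sq_zero {A : Type} [NonUnitalCommRing A] (x : A) : Sq x 0 = 0 := rfl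

private theorem Sq_succ {A : Type} [NonUnitalCommRing A] (x : A) (m : ℕ) :
    Sq x (m + 1) = -(x + x * Sq x m) := rfl

private theorem Sq_err {A : Type} [NonUnitalCommRing A] (x : A) (m : ℕ) :
    Sq x (m + 1) + x + Sq x (m + 1) * x = -(x * (Sq x m + x + Sq x m * x)) := by
  rw [Sq_succ]
  simp only [mul_add, add_mul, neg_mul, mul_assoc]
  abel

/-- **RB.** -/
theorem hRB : StRB := by
  intro A _ _ _ _ r hr hrad α hα
  obtain ⟨N, hN⟩ := hα (1 / 8) (by norm_num)
  obtain ⟨a, ha⟩ : ∃ a : A, a = α N := ⟨_, rfl⟩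
  obtain ⟨K, hK⟩ := hrad a (1 / 16) (by norm_num)
  have hK0 : 0 ≤ K := by
    have h := hK 0
    rw [pow_zero, mul_one] at h
    exact (apply_nonneg r _).trans h
  obtain ⟨n0, hn0⟩ := exists_pow_lt_of_lt_one (by positivity : (0 : ℝ) < 1 / (8 * K + 1))
    (by norm_num : (1 / 2 : ℝ) < 1)
  have hn1 : 8 ^ (n0 + 1) * (K * (1 / 16) ^ n0) ≤ 1 := by
    rw [lt_div_iff₀ (by positivity)] at hn0
    have e : (8 : ℝ) ^ (n0 + 1) * (K * (1 / 16) ^ n0) = (1 / 2) ^ n0 * (8 * K) := by
      have e2 : (8 : ℝ) ^ n0 * (1 / 16) ^ n0 = (1 / 2) ^ n0 := by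
        rw [← mul_pow]
        norm_num
      rw [pow_succ, ← e2]
      ring
    rw [e]
    have : (0 : ℝ) < (1 / 2) ^ n0 := by positivity
    linarith
  have hm : ∀ c, 8 ^ (n0 + 1) * r (P a (n0 + 1) c) ≤ r c := by
    intro c
    rw [P_self]
    have h1 : r (P a n0 a * c) ≤ K * (1 / 16) ^ n0 * r c :=
      (hr _ _).trans (mul_le_mul_of_nonneg_right (hK n0) (apply_nonneg r c))
    calc (8 : ℝ) ^ (n0 + 1) * r (P a n0 a * c) ≤ 8 ^ (n0 + 1) * (K * (1 / 16) ^ n0 * r c) :=
          mul_le_mul_of_nonneg_left h1 (by positivity)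
      _ = 8 ^ (n0 + 1) * (K * (1 / 16) ^ n0) * r c := by ring
      _ ≤ 1 * r c := mul_le_mul_of_nonneg_right hn1 (apply_nonneg r c)
      _ = r c := one_mul _
  obtain ⟨M, hM⟩ : ∃ M : ℝ, M = ∑ n ∈ Finset.range (n0 + 1), (8 : ℝ) ^ n * r a ^ n := ⟨_, rfl⟩
  have hM0 : 0 ≤ M := by
    rw [hM]
    exact Finset.sum_nonneg fun n _ => mul_nonneg (by positivity)
      (pow_nonneg (apply_nonneg r a) n)
  -- the contraction
  have hctr : ∀ k, N ≤ k → ∀ c, rho r a (n0 + 1) (α k * c) ≤ rho r a (n0 + 1) c / 4 := by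
    intro k hk c
    have e : α k * c = a * c + (α k - a) * c := by
      rw [← add_mul, add_sub_cancel]
    have h1 := rho_add_le r a (n0 + 1) (a * c) ((α k - a) * c)
    have h2 := rho_a r a (n0 + 1) c (hm c)
    have h3 := rho_mul_le r hr a (n0 + 1) (α k - a) c
    have h4 : r (α k - a) ≤ 1 / 8 := by
      rw [ha]
      exact hN k hk
    have h5 := mul_le_mul_of_nonneg_right h4 (rho_nonneg r a (n0 + 1) c)
    rw [e]
    linarith
  have hneg : ∀ c, rho r a (n0 + 1) (-c) ≤ rho r a (n0 + 1) c := by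
    intro c
    have h1 := rho_sub_le r a (n0 + 1) 0 c
    have h2 : rho r a (n0 + 1) 0 ≤ 0 := by
      have h3 := rho_le r hr a (n0 + 1) 0
      rw [map_zero, mul_zero] at h3
      exact h3
    rw [zero_sub] at h1
    linarith
  obtain ⟨M1, hM1⟩ : ∃ M1 : ℝ, M1 = M * (r a + 1 / 8) := ⟨_, rfl⟩
  have hra : 0 ≤ r a := apply_nonneg r a
  have hM10 : 0 ≤ M1 := by rw [hM1]; positivity
  have hrk : ∀ k, N ≤ k → rho r a (n0 + 1) (α k) ≤ M1 := by
    intro k hk
    have h1 := rho_le r hr a (n0 + 1) (α k)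
    rw [← hM] at h1
    have h2 : r (α k) ≤ r a + 1 / 8 := by
      have h3 := map_add_le_add r a (α k - a)
      rw [add_sub_cancel] at h3
      have h4 : r (α k - a) ≤ 1 / 8 := by
        rw [ha]
        exact hN k hk
      linarith
    have h3 := mul_le_mul_of_nonneg_left h2 hM0
    rw [hM1]
    linarith
  obtain ⟨m, hm1⟩ := exists_pow_lt_of_lt_one (by positivity : (0 : ℝ) < 1 / (4 * M1 + 1))
    (by norm_num : (1 / 4 : ℝ) < 1)
  have hmle : (1 / 4 : ℝ) ^ m * M1 ≤ 1 / 4 := by
    rw [lt_div_iff₀ (by positivity)] at hm1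
    have : (0 : ℝ) < (1 / 4) ^ m := by positivity
    linarith
  -- the bounds for the partial sums
  have hS : ∀ k, N ≤ k → ∀ j, rho r a (n0 + 1) (Sq (α k) j) ≤ 2 * M1 := by
    intro k hk j
    induction j with
    | zero =>
      rw [Sq_zero]
      have h3 := rho_le r hr a (n0 + 1) 0
      rw [map_zero, mul_zero] at h3
      linarith
    | succ j ih =>
      rw [Sq_succ]
      have h1 := hneg (α k + α k * Sq (α k) j)
      have h2 := rho_add_le r a (n0 + 1) (α k) (α k * Sq (α k) j)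
      have h3 := hctr k hk (Sq (α k) j)
      have h4 := hrk k hk
      linarith
  have hE : ∀ k, N ≤ k → ∀ j, rho r a (n0 + 1) (Sq (α k) j + α k + Sq (α k) j * α k) ≤
      (1 / 4) ^ j * M1 := by
    intro k hk j
    induction j with
    | zero =>
      rw [Sq_zero, zero_add, zero_mul, add_zero, pow_zero, one_mul]
      exact hrk k hk
    | succ j ih =>
      rw [Sq_err]
      have h1 := hneg (α k * (Sq (α k) j + α k + Sq (α k) j * α k))
      have h2 := hctr k hk (Sq (α k) j + α k + Sq (α k) j * α k)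
      rw [pow_succ]
      linarith
  obtain ⟨N2, hN2⟩ := hα (1 / (8 * (1 + 2 * M1))) (by positivity)
  obtain ⟨k1, hk1, hk2⟩ : ∃ k1, N ≤ k1 ∧ N2 ≤ k1 := ⟨max N N2, le_max_left _ _, le_max_right _ _⟩
  refine ⟨Sq (α k1) m, k1, fun k hk => ?_⟩
  have h1 := hN2 k (hk2.trans hk)
  have h2 := hN2 k1 hk2
  have h3 : r (α k - α k1) ≤ 2 * (1 / (8 * (1 + 2 * M1))) := by
    have h4 := map_sub_le_add r (α k - α N2) (α k1 - α N2)
    rw [sub_sub_sub_cancel_right] at h4
    linarith
  have e : Sq (α k1) m + α k + Sq (α k1) m * α k =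
      (Sq (α k1) m + α k1 + Sq (α k1) m * α k1) +
        ((α k - α k1) + Sq (α k1) m * (α k - α k1)) := by
    rw [mul_sub]
    abel
  have h4 := map_add_le_add r (Sq (α k1) m + α k1 + Sq (α k1) m * α k1)
    ((α k - α k1) + Sq (α k1) m * (α k - α k1))
  have h5 := map_add_le_add r (α k - α k1) (Sq (α k1) m * (α k - α k1))
  have h6 := hr (Sq (α k1) m) (α k - α k1)
  have h7 : r (Sq (α k1) m) ≤ 2 * M1 :=
    (rho_ge r a (n0 + 1) (by omega) _).trans (hS k1 hk1 m)
  have h8 : r (Sq (α k1) m + α k1 + Sq (α k1) m * α k1) ≤ 1 / 4 :=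
    (rho_ge r a (n0 + 1) (by omega) _).trans ((hE k1 hk1 m).trans hmle)
  have h9 : r (Sq (α k1) m) * r (α k - α k1) ≤ 2 * M1 * r (α k - α k1) :=
    mul_le_mul_of_nonneg_right h7 (apply_nonneg r _)
  have h10 : (1 + 2 * M1) * r (α k - α k1) ≤ 1 / 4 := by
    have h11 := mul_le_mul_of_nonneg_left h3 (by positivity : (0 : ℝ) ≤ 1 + 2 * M1)
    have h12 : (1 + 2 * M1) * (2 * (1 / (8 * (1 + 2 * M1)))) = 1 / 4 := by
      field_simp
      norm_num
    linarith
  rw [e]
  linarith

end Pool.Agent.Helper5.R20b
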